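import Pool.Agent.H891R2.DS.Final

/-!
# Link diagrams with dominated states

`Pool.Agent.H891R2.DS.Defs`, `Pool.Agent.H891R2.DS.Final`, `Pool.Agent.H891R2.MT.Defs` and
`Pool.Agent.H891R2.Jones.Diagram` contain the definitions:

* `Ribbon k`: ribbon graphs with `k` edges; `Ribbon.Planar`: connected and planar;
  `Γ.link (sg R)`: the link diagram with Tait graph `Γ` and one crossing at every edge, of the kind
  `-1` for the edges in `R` and `1` for the others (every connected link diagram with at least one
  crossing is of this form); `Orients D U`: `D` is the unoriented diagram `U` with directions;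
  `D.fPoly`: its normalised Kauffman bracket;
* a state is a set `S` of edges (the bands of `Γ` which are kept in the smoothing); `Asm R S`: the
  crossings which have the `A`-smoothing in the state `S`; `stateGraph Γ S`: the state graph; its
  vertices are the circles of `S`, and every crossing is an edge between the circles which it touches;
* `Dom G M`: every nonempty even subgraph (hence: every cycle) of `G` has at least two more edges
  outside `M` than in `M`;
* `Nugatory Γ e`: the crossing `e` is nugatory (a bridge of the Tait graph or of its dual);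
* `spanA Γ R S₁ S₂ = 2 k + 2 (v₁ + v₂) - 4 - 6 (m₁ + m₂)`, `vᵢ` the number of circles of `Sᵢ`, `m₁`
  the number of `A`-smoothings of `S₁`, `m₂` the number of `B`-smoothings of `S₂`.
-/

set_option autoImplicit false

namespace Pool.Agent.Results.MP_42db45_gt.DominatedStates

open Finset Pool.Agent.H891R2.Jones Pool.Agent.H891R2.MT Pool.Agent.H891R2.DS

/-- Let `D` be a connected link diagram with `k > 0` crossings which has a state `S₁` such that every
cycle of its state graph has at least two more `B`-smoothed than `A`-smoothed crossings, and a state
`S₂` such that every cycle of its state graph has at least two more `A`-smoothed than `B`-smoothed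
crossings. Then the normalised bracket of `D` has span exactly `spanA Γ R S₁ S₂` (in the variable
`A`) and extreme coefficients `± 1`; if some crossing is not nugatory, then this span is positive and
the Jones polynomial of `D` is not `1`. (If `S₁` is the all-`B` state and `S₂` the all-`A` state, this is
the theorem of Lickorish and Thistlethwaite on adequate diagrams.) -/
theorem result {k : ℕ} (Γ : Ribbon k) (hΓ : Γ.Planar) (hk : 0 < k) (R S₁ S₂ : Finset (Fin k)) 
    (h₁ : Dom (stateGraph Γ S₁) (Asm R S₁)) (h₂ : Dom (stateGraph Γ S₂) (Asm R S₂)ᶜ) 
    (D : Diagram (Ribbon.Pt (sg R))) (hD : Orients D (Γ.link (sg R))) :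
    (∃ m : ℤ, (∀ j, D.fPoly.coeff j ≠ 0 → m ≤ j ∧ j ≤ m + spanA Γ R S₁ S₂) ∧ 
      |D.fPoly.coeff m| = 1 ∧ |D.fPoly.coeff (m + spanA Γ R S₁ S₂)| = 1) ∧ 
    ((∃ e, ¬ Nugatory Γ e) → 0 < spanA Γ R S₁ S₂ ∧ D.fPoly ≠ 1) :=
  final Γ hΓ hk R S₁ S₂ h₁ h₂ D hD

end Pool.Agent.Results.MP_42db45_gt.DominatedStates
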