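import Pool.Agent.H891R2.MT.T7

/-!
# Link diagrams with variable numbers of crossings on the edges of a plane graph

`Pool.Agent.H891R2.MT.Defs` and `Pool.Agent.H891R2.Jones.Diagram` contain the definitions:
`Ribbon k` (a ribbon graph with `k` edges: rotation system on its `2k` darts), `Ribbon.verts`,
`Ribbon.faces`, `Ribbon.comps`, `Ribbon.Planar` (connected and `v - e + f = 2`: a connected plane
graph), `Ribbon.link n` (the unoriented link diagram which is the boundary of the plane surface
made of one disc for every vertex and, for every edge `e`, a band with `n e ∈ ℤ` half twists, that is,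
a row of `|n e|` crossings), `UDiagram`/`Diagram` (unoriented/oriented diagrams with marked points),
`Orients D U` (`D` is the diagram `U` with directions) and `Diagram.fPoly` (the normalised Kauffman
bracket `(-A^{-3})^{w(D)} ⟨D⟩`).  `SpanLE s U` (in `Pool.Agent.H891R2.MT.T7`): `U` has an orientation
for which the Jones polynomial, as a Laurent polynomial in `t = A^{-4}`, has span at most `s`.  For
example the diagrams with `fPoly = 1` (the Jones polynomial of the unknot) satisfy `SpanLE 0`.

(If all `n e` are `±1` then `Γ.link n` is the diagram with Tait graph `Γ`; every connected link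
diagram is obtained in this way.)
-/

set_option autoImplicit false

namespace Pool.Agent.Results.MP_42db45_gt.MultiTwist

open Pool.Agent.H891R2.MT

/-- Let `Γ` be a connected plane graph with `k` edges and at least two independent cycles
(`verts + 1 ≤ k`), and let `D(n) = Γ.link n` be the link diagram with `|n e|` crossings on the edge `e`,
`n ∈ ℤ^k`.  If the Jones polynomial of `D(n)` has span at most `s` (for instance if `s = 0` and it is
the Jones polynomial `1` of the unknot), then `n` satisfies two linearly independent inequalities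
`|n(S₁) - n(S₂)| ≤ 14 k + s`, `|n(S₃) - n(S₄)| ≤ 14 k + s`, where `n(S) = ∑ e ∈ S, n e`.  Hence this
happens for at most `9^k (28 k + 2 s + 1)² (2 N + 1)^(k-2)` of the `(2 N + 1)^k` diagrams `D(n)` with
`|n e| ≤ N` for all `e`. -/
theorem result (k : ℕ) (Γ : Ribbon k) (hΓ : Γ.Planar) (hk : Γ.verts + 1 ≤ k) (s : ℕ) :
    (∀ n : Fin k → ℤ, SpanLE s (Γ.link n) → 
      ∃ S₁ S₂ S₃ S₄ : Finset (Fin k),
        (∀ a b : ℤ, (∀ e, a * ((if e ∈ S₁ then 1 else 0) - (if e ∈ S₂ then 1 else 0)) + 
          b * ((if e ∈ S₃ then 1 else 0) - (if e ∈ S₄ then 1 else 0)) = 0) → a = 0 ∧ b = 0) ∧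
        |∑ e ∈ S₁, n e - ∑ e ∈ S₂, n e| ≤ 14 * k + s ∧ 
        |∑ e ∈ S₃, n e - ∑ e ∈ S₄, n e| ≤ 14 * k + s) ∧
    (∀ N : ℕ, {n : Fin k → ℤ | (∀ e, |n e| ≤ N) ∧ SpanLE s (Γ.link n)}.ncard ≤ 
      9 ^ k * (28 * k + 2 * s + 1) ^ 2 * (2 * N + 1) ^ (k - 2)) :=
  ⟨fun n h => two_relations2 Γ hΓ hk n s h, fun N => main2 Γ hΓ hk s N⟩

end Pool.Agent.Results.MP_42db45_gt.MultiTwist
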