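import Pool.Agent.H891R2.ZO.Main

/-!
# A zero-one law for trivial Jones polynomials in twist families of arbitrary diagrams

Diagrams: `Pool.Agent.H891R2.Jones.Diagram` (`Crossing`, `Diagram`, `bracket`, `fPoly`),
`Pool.Agent.H891R2.MT.Defs` (`UDiagram`; `Orients D U`: `D` is the unoriented diagram `U` with
directions) and `Pool.Agent.H891R2.SI.Defs`:

* `Sites k`: a diagram `O` with `k` open boxes (sites), each with four corners; planarity is not
  required; `O.Connected`: the diagram is connected (each site being one piece);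
* `O.fill w`, `w ∈ ℤ^k`: the site `e` is filled with two vertical strands twisted around each other, a
  row of `|w e|` crossings of the kind given by the sign of `w e`;
* `O.cut`: every site is filled with a cup and a cap, that is, all sites are cut through.

`Pool.Agent.H891R2.ZO.Main`: `IsPow f`: `f = ± A ^ n` for some `n`; `Spread M w`: every combination
`∑ a e * w e` with coefficients `a e ∈ {-1, 0, 1}`, not all `0`, has absolute value more than `M / 2`.
-/

set_option autoImplicit false

namespace Pool.Agent.Results.MP_42db45_gt.ZeroOneLaw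

open LaurentPolynomial Pool.Agent.H891R2.Jones Pool.Agent.H891R2.MT Pool.Agent.H891R2.SI
  Pool.Agent.H891R2.ZO

/-- Let `O` be a connected diagram with `c` crossings and `k ≥ 1` sites.

* Either all the links `O.fill w`, `w ∈ ℤ^k`, have a trivial Jones polynomial up to a unit
  (`f = ± A ^ n`), and the bracket of `O.cut` is, up to a unit, the one of the unlink with `k + 1`
  components; or none of the links `O.fill w` with `|∑ a e * w e| > (3 c + 6 k) / 2` for all nonzero
  `a ∈ {-1, 0, 1}^k` has this property; in particular `f ≠ 1` for these links.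
* At most `3 ^ k (3 c + 6 k + 1) (2 N + 1) ^ (k - 1)` of the `(2 N + 1) ^ k` vectors `w` with
  `|w e| ≤ N` do not satisfy this condition. -/
theorem result (k : ℕ) (hk : 0 < k) (O : Sites k) (hO : O.Connected) : 
    (((∀ (w : Fin k → ℤ) (D : Diagram (O.P ⊕ Ribbon.Pt w)), Orients D (O.fill w) → 
        IsPow D.fPoly) ∧ 
      ∃ u, IsPow u ∧ O.cut.std.bracket = u * (-T 2 - T (-2)) ^ k) ∨ 
     (∀ w : Fin k → ℤ, Spread (3 * O.crossings.length + 6 * k) w → 
      ∀ D : Diagram (O.P ⊕ Ribbon.Pt w), Orients D (O.fill w) → ¬ IsPow D.fPoly)) ∧ 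
    ∀ N : ℕ, {w : Fin k → ℤ | (∀ e, |w e| ≤ N) ∧ 
      ¬ Spread (3 * O.crossings.length + 6 * k) w}.ncard ≤ 
        3 ^ k * (3 * O.crossings.length + 6 * k + 1) * (2 * N + 1) ^ (k - 1) := by
  refine ⟨?_, fun N => ?_⟩
  · by_cases h : ∀ w : Fin k → ℤ, Spread (3 * O.crossings.length + 6 * k) w → 
      ∀ D : Diagram (O.P ⊕ Ribbon.Pt w), Orients D (O.fill w) → ¬ IsPow D.fPoly
    · exact Or.inr h
    · left
      push Not at h
      obtain ⟨w, hw, D, hD, hf⟩ := h
      have := main O hk hO w hw D hD hf
      exact ⟨this.2, this.1⟩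
  · have := count_spread (k := k) (3 * O.crossings.length + 6 * k) N
    push_cast at this
    exact this

end Pool.Agent.Results.MP_42db45_gt.ZeroOneLaw
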